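import Pool.Agent.Helper16.Disk7.Defs

/-!
# Asymptotic packing of convex sets of perimeter one: coordinates

`X` and `Y` are the coordinates of the plane for which `X`, `Y` and `X + Y` are the orthogonal
projections on three directions with angles of 60 degrees.
-/

namespace Pool.Agent.Helper79.PK

/-- The projection on the direction of angle `0`. -/
noncomputable def X (z : ℂ) : ℝ := z.re

/-- The projection on the direction of angle `2 π / 3`. -/
noncomputable def Y (z : ℂ) : ℝ := -z.re / 2 + √3 / 2 * z.im

end Pool.Agent.Helper79.PK
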