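import Mathlib

/-!
# The numerical part of the packing theorem
-/

namespace Pool.Agent.Helper79.PK

/-- The constant `κ` with `κ ^ 2 = √3 / (2 * π ^ 3)`. -/
noncomputable def kappa : ℝ := √(√3 / (2 * Real.pi ^ 3))

theorem kappa_sq : kappa ^ 2 = √3 / (2 * Real.pi ^ 3) :=
  Real.sq_sqrt (by have := Real.pi_pos; positivity)

theorem kappa_pos : 0 < kappa := Real.sqrt_pos.2 (by have := Real.pi_pos; positivity)

theorem kappa_lower : 16 / 100 ≤ kappa := by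
  refine Real.le_sqrt_of_sq_le ?_
  have h1 : Real.pi < 3.15 := Real.pi_lt_d2
  have h0 := Real.pi_pos
  have h3 : (1.73 : ℝ) ≤ √3 := Real.le_sqrt_of_sq_le (by norm_num)
  rw [le_div_iff₀ (by positivity)]
  have h4 : Real.pi ^ 3 ≤ 3.15 ^ 3 := pow_le_pow_left₀ h0.le h1.le 3
  nlinarith

theorem numerics {x M R : ℝ} (hx : 1 ≤ x) (hM : x ≤ M) (hM2 : M ≤ x + 1)
    (hR : kappa * x ^ 3 + 11000 * x ^ 2 ≤ R) :
    x ^ 6 * ((3 / Real.pi + 3 / M) ^ 2 / 12) / (12 * M - 6) ^ 2 + M * M * (M + 1) ≤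
      √3 / 2 * Real.pi * (R - 2 * (12 * M)) ^ 2 / (12 * M) ^ 2 := by
  have hπ0 := Real.pi_pos
  have hπ3 := Real.pi_gt_three
  have hπ4 : Real.pi < 3.15 := Real.pi_lt_d2
  have hM1 : 1 ≤ M := hx.trans hM
  have hM0 : 0 < M := by linarith
  have hx0 : 0 < x := by linarith
  have hκ := kappa_lower
  have hκ0 := kappa_pos
  have hs3 : (1.73 : ℝ) ≤ √3 := Real.le_sqrt_of_sq_le (by norm_num)
  have hM2x : M ≤ 2 * x := by linarith
  have hMsq : M ^ 2 ≤ 4 * x ^ 2 := by nlinarith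
  have hMcu : M ^ 3 ≤ 8 * x ^ 3 := by
    have := pow_le_pow_left₀ hM0.le hM2x 3
    calc M ^ 3 ≤ (2 * x) ^ 3 := this
      _ = _ := by ring
  have hx2 : x ≤ x ^ 2 := by nlinarith
  -- the radius
  have hR1 : kappa * x ^ 3 + 2738 * M ^ 2 ≤ R - 2 * (12 * M) := by nlinarith
  have hR0 : 0 ≤ kappa * x ^ 3 + 2738 * M ^ 2 := by positivity
  have hR2 : (kappa * x ^ 3 + 2738 * M ^ 2) ^ 2 ≤ (R - 2 * (12 * M)) ^ 2 :=
    pow_le_pow_left₀ hR0 hR1 2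
  have hR3 : kappa ^ 2 * x ^ 6 + 2 * 2738 * kappa * (x ^ 3 * M ^ 2) ≤
      (kappa * x ^ 3 + 2738 * M ^ 2) ^ 2 := by nlinarith [sq_nonneg (M ^ 2)]
  -- the two correction factors
  have hy0 : 0 < 1 / M := by positivity
  have hy1 : 1 / M ≤ 1 := by rw [div_le_one hM0]; exact hM1
  have f1 : (3 / Real.pi + 3 / M) ^ 2 ≤ 9 / Real.pi ^ 2 * (1 + 4 * (1 / M)) ^ 2 := by
    have e : (3 / Real.pi + 3 / M) = 3 / Real.pi * (1 + Real.pi * (1 / M)) := by field_simp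
    rw [e, mul_pow, div_pow]
    have : (1 + Real.pi * (1 / M)) ^ 2 ≤ (1 + 4 * (1 / M)) ^ 2 := by
      refine pow_le_pow_left₀ (by positivity) ?_ 2
      nlinarith
    have h9 : (3 : ℝ) ^ 2 = 9 := by norm_num
    rw [h9]
    exact mul_le_mul_of_nonneg_left this (by positivity)
  have f2 : (12 * M) ^ 2 / (12 * M - 6) ^ 2 ≤ (1 + 1 / M) ^ 2 := by
    rw [← div_pow]
    refine pow_le_pow_left₀ (div_nonneg (by linarith) (by linarith)) ?_ 2
    rw [div_le_iff₀ (by linarith)]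
    have : 1 / M * M = 1 := by field_simp
    nlinarith
  have f3 : (1 + 4 * (1 / M)) ^ 2 * (1 + 1 / M) ^ 2 ≤ 1 + 99 * (1 / M) := by
    generalize 1 / M = y at hy0 hy1 ⊢
    have hy2 : y ^ 2 ≤ y := by nlinarith
    have hy3 : y ^ 3 ≤ y := by nlinarith
    have hy4 : y ^ 4 ≤ y := by nlinarith
    nlinarith
  rw [le_div_iff₀ (by positivity), add_mul]
  have g1 : x ^ 6 * ((3 / Real.pi + 3 / M) ^ 2 / 12) / (12 * M - 6) ^ 2 * (12 * M) ^ 2 ≤
      x ^ 6 * (9 / Real.pi ^ 2 / 12) * (1 + 99 * (1 / M)) := by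
    have e : x ^ 6 * ((3 / Real.pi + 3 / M) ^ 2 / 12) / (12 * M - 6) ^ 2 * (12 * M) ^ 2 =
        x ^ 6 / 12 * ((3 / Real.pi + 3 / M) ^ 2 * ((12 * M) ^ 2 / (12 * M - 6) ^ 2)) := by
      ring
    have e' : x ^ 6 * (9 / Real.pi ^ 2 / 12) * (1 + 99 * (1 / M)) =
        x ^ 6 / 12 * (9 / Real.pi ^ 2 * (1 + 99 * (1 / M))) := by ring
    rw [e, e']
    refine mul_le_mul_of_nonneg_left ?_ (by positivity)
    calc (3 / Real.pi + 3 / M) ^ 2 * ((12 * M) ^ 2 / (12 * M - 6) ^ 2) ≤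
        (9 / Real.pi ^ 2 * (1 + 4 * (1 / M)) ^ 2) * (1 + 1 / M) ^ 2 :=
          mul_le_mul f1 f2 (by positivity) (by positivity)
      _ = 9 / Real.pi ^ 2 * ((1 + 4 * (1 / M)) ^ 2 * (1 + 1 / M) ^ 2) := by ring
      _ ≤ _ := mul_le_mul_of_nonneg_left f3 (by positivity)
  have g2 : M * M * (M + 1) * (12 * M) ^ 2 ≤ 2304 * (x ^ 3 * M ^ 2) := by
    have : M * M * (M + 1) * (12 * M) ^ 2 = 144 * M ^ 2 * (M ^ 3 + M ^ 2) := by ring
    rw [this]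
    have h1 : M ^ 2 ≤ M ^ 3 := by nlinarith [sq_nonneg M]
    have h2 : M ^ 3 + M ^ 2 ≤ 16 * x ^ 3 := by linarith
    calc 144 * M ^ 2 * (M ^ 3 + M ^ 2) ≤ 144 * M ^ 2 * (16 * x ^ 3) :=
          mul_le_mul_of_nonneg_left h2 (by positivity)
      _ = _ := by ring
  have g3 : x ^ 6 * (9 / Real.pi ^ 2 / 12) * (99 * (1 / M)) ≤ 9 * (x ^ 3 * M ^ 2) := by
    have h1 : x ^ 6 * (1 / M) ≤ x ^ 3 * M ^ 2 := by
      rw [mul_one_div, div_le_iff₀ hM0]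
      have : x ^ 3 ≤ M ^ 3 := pow_le_pow_left₀ hx0.le hM 3
      calc x ^ 6 = x ^ 3 * x ^ 3 := by ring
        _ ≤ x ^ 3 * M ^ 3 := mul_le_mul_of_nonneg_left this (by positivity)
        _ = _ := by ring
    have h2 : 9 / Real.pi ^ 2 / 12 ≤ 1 / 12 := by
      refine div_le_div_of_nonneg_right ?_ (by norm_num)
      rw [div_le_one (by positivity)]
      nlinarith
    calc x ^ 6 * (9 / Real.pi ^ 2 / 12) * (99 * (1 / M)) =
        99 * (9 / Real.pi ^ 2 / 12) * (x ^ 6 * (1 / M)) := by ring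
      _ ≤ 99 * (1 / 12) * (x ^ 3 * M ^ 2) := by
        refine mul_le_mul (mul_le_mul_of_nonneg_left h2 (by norm_num)) h1 (by positivity)
          (by norm_num)
      _ ≤ _ := by nlinarith [show 0 ≤ x ^ 3 * M ^ 2 by positivity]
  have g4 : √3 / 2 * Real.pi * (kappa ^ 2 * x ^ 6) = x ^ 6 * (9 / Real.pi ^ 2 / 12) := by
    rw [kappa_sq]
    have h3 : √3 * √3 = 3 := Real.mul_self_sqrt (by norm_num)
    field_simp
    nlinarith
  have g5 : 2313 * (x ^ 3 * M ^ 2) ≤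
      √3 / 2 * Real.pi * (2 * 2738 * kappa * (x ^ 3 * M ^ 2)) := by
    have h1 : 0 ≤ x ^ 3 * M ^ 2 := by positivity
    have h2 : 2313 ≤ √3 / 2 * Real.pi * (2 * 2738 * kappa) := by
      have hπ314 : (3.14 : ℝ) < Real.pi := Real.pi_gt_d2
      have h5 : (1.73 : ℝ) / 2 * 3.14 ≤ √3 / 2 * Real.pi :=
        mul_le_mul (by linarith) hπ314.le (by norm_num) (by positivity)
      calc (2313 : ℝ) ≤ (1.73 : ℝ) / 2 * 3.14 * (2 * 2738 * (16 / 100)) := by norm_num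
        _ ≤ √3 / 2 * Real.pi * (2 * 2738 * kappa) :=
          mul_le_mul h5 (by linarith) (by norm_num) (by positivity)
    nlinarith
  have g6 : √3 / 2 * Real.pi * (kappa ^ 2 * x ^ 6 + 2 * 2738 * kappa * (x ^ 3 * M ^ 2)) ≤
      √3 / 2 * Real.pi * (R - 2 * (12 * M)) ^ 2 :=
    mul_le_mul_of_nonneg_left (hR3.trans hR2) (by positivity)
  nlinarith

end Pool.Agent.Helper79.PK
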