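import Pool.Agent.Helper79.PK.Place
import Pool.Agent.Helper79.PK.Num
import Pool.Agent.Helper80.PK.Thue
import Pool.Agent.Helper16.Disk7.Sanity

/-!
# Asymptotics of the least radii
-/

namespace Pool.Agent.Helper79.PK

open Pool.Agent.Helper16.Disk7 MeasureTheory Metric

/-- The set of the radii of the closed disks centred at the origin which accommodate `k` disks of
perimeter `1`. -/
def diskRadii (k : ℕ) : Set ℝ :=
  {R | 0 ≤ R ∧ Accommodates (closedBall (0 : ℂ) R)
    (fun _ : Fin k => closedBall (0 : ℂ) (1 / (2 * Real.pi)))}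

/-- The set of the radii of the closed disks centred at the origin which accommodate every family
of `k` convex sets of perimeter `1`. -/
def allRadii (k : ℕ) : Set ℝ :=
  {R | 0 ≤ R ∧ ∀ K : Fin k → Set ℂ, (∀ i, IsUnitConvexSet (K i)) →
    Accommodates (closedBall (0 : ℂ) R) K}

/-- The number `ρ_k`. -/
noncomputable def rho (k : ℕ) : ℝ := sInf (diskRadii k)

/-- The number `R_k`. -/
noncomputable def bigR (k : ℕ) : ℝ := sInf (allRadii k)

/-- Upper bound. -/
theorem upper {k : ℕ} (hk : 1 ≤ k) {R : ℝ}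
    (hR : kappa * √k + 11000 * (k : ℝ) ^ (1 / 3 : ℝ) ≤ R)
    (K : Fin k → Set ℂ) (hK : ∀ i, IsUnitConvexSet (K i)) (c : ℂ) :
    Accommodates (closedBall c R) K := by
  have hk1 : (1 : ℝ) ≤ k := by exact_mod_cast hk
  have hk0 : (0 : ℝ) ≤ k := by linarith
  set x : ℝ := (k : ℝ) ^ (1 / 6 : ℝ) with hx
  have hx1 : 1 ≤ x := Real.one_le_rpow hk1 (by norm_num)
  have hx0 : 0 ≤ x := by linarith
  have hx6 : x ^ 6 = k := by
    rw [hx, ← Real.rpow_natCast, ← Real.rpow_mul hk0]; norm_num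
  have hx2 : x ^ 2 = (k : ℝ) ^ (1 / 3 : ℝ) := by
    rw [hx, ← Real.rpow_natCast, ← Real.rpow_mul hk0]; norm_num
  have hx3 : x ^ 3 = √k := by
    rw [hx, ← Real.rpow_natCast, ← Real.rpow_mul hk0, Real.sqrt_eq_rpow]; norm_num
  rw [← hx2, ← hx3] at hR
  have hM1 : x ≤ (⌈x⌉₊ : ℝ) := Nat.le_ceil x
  have hM2 : (⌈x⌉₊ : ℝ) ≤ x + 1 := (Nat.ceil_lt_add_one hx0).le
  have hm : 1 ≤ ⌈x⌉₊ := by
    have : (1 : ℝ) ≤ (⌈x⌉₊ : ℝ) := hx1.trans hM1
    exact_mod_cast this
  have key := numerics hx1 hM1 hM2 hR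
  rw [hx6] at key
  refine place hm (ℓ := 12 * (⌈x⌉₊ : ℝ)) (by linarith) ?_ key K hK c
  have := kappa_pos
  have h3 : 0 ≤ kappa * x ^ 3 := by positivity
  nlinarith

/-- Centres of a packing of disks. -/
theorem centres {k : ℕ} (hk : 1 ≤ k) {c : ℂ} {R r : ℝ} (hr : 0 < r)
    (h : Accommodates (closedBall c R) (fun _ : Fin k => closedBall (0 : ℂ) r)) :
    r ≤ R ∧ ∃ b : Fin k → ℂ, (∀ i, dist (b i) c ≤ R - r) ∧
      ∀ i j, i ≠ j → 2 * r ≤ dist (b i) (b j) := by
  obtain ⟨g, hg, hsub, hdis⟩ := h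
  choose a b ha hgz using hg
  have himg : ∀ i, g i '' closedBall (0 : ℂ) r = closedBall (b i) r := by
    intro i
    have ha0 : a i ≠ 0 := by
      intro h0; have := ha i; rw [h0, norm_zero] at this; norm_num at this
    ext z
    simp only [Set.mem_image, mem_closedBall, dist_eq_norm, sub_zero]
    constructor
    · rintro ⟨w, hw, rfl⟩
      rw [hgz, add_sub_cancel_right, norm_mul, ha, one_mul]
      exact hw
    · intro hz
      refine ⟨(a i)⁻¹ * (z - b i), ?_, ?_⟩
      · rw [norm_mul, norm_inv, ha, inv_one, one_mul]; exact hz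
      · rw [hgz, mul_inv_cancel_left₀ ha0]; ring
  have h1 : ∀ i, dist (b i) c + r ≤ R := by
    intro i
    have hs := hsub i
    simp only at hs
    rw [himg] at hs
    by_cases hbc : b i = c
    · have : c + (r : ℂ) ∈ closedBall (b i) r := by
        rw [mem_closedBall, hbc, dist_eq_norm, add_sub_cancel_left, Complex.norm_real,
          Real.norm_eq_abs, abs_of_pos hr]
      have := hs this
      rw [mem_closedBall, dist_eq_norm, add_sub_cancel_left, Complex.norm_real,
          Real.norm_eq_abs, abs_of_pos hr] at this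
      rw [hbc, dist_self]; linarith
    · have hne : b i - c ≠ 0 := sub_ne_zero.2 hbc
      have hn : 0 < ‖b i - c‖ := norm_pos_iff.2 hne
      have hmem : b i + (r / ‖b i - c‖ : ℝ) * (b i - c) ∈ closedBall (b i) r := by
        rw [mem_closedBall, dist_eq_norm, add_sub_cancel_left, norm_mul, Complex.norm_real,
          Real.norm_eq_abs, abs_of_pos (by positivity), div_mul_cancel₀ _ hn.ne']
      have := hs hmem
      rw [mem_closedBall, dist_eq_norm] at this
      have e : b i + (r / ‖b i - c‖ : ℝ) * (b i - c) - c =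
          ((1 + r / ‖b i - c‖ : ℝ) : ℂ) * (b i - c) := by push_cast; ring
      rw [e, norm_mul, Complex.norm_real, Real.norm_eq_abs, abs_of_pos (by positivity), add_mul,
        one_mul, div_mul_cancel₀ _ hn.ne'] at this
      rw [dist_eq_norm]; exact this
  refine ⟨?_, b, fun i => by linarith [h1 i], ?_⟩
  · have := h1 ⟨0, hk⟩
    have h2 : 0 ≤ dist (b ⟨0, hk⟩) c := dist_nonneg
    linarith
  · intro i j hij
    by_contra hlt
    push Not at hlt
    have hd := hdis i j hij
    simp only at hd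
    rw [himg, himg, interior_closedBall _ hr.ne', interior_closedBall _ hr.ne'] at hd
    have hmid : (b i + b j) / 2 ∈ ball (b i) r ∩ ball (b j) r := by
      rw [dist_eq_norm] at hlt
      constructor
      · rw [mem_ball, dist_eq_norm]
        have e : (b i + b j) / 2 - b i = -((b i - b j) / 2) := by ring
        rw [e, norm_neg, norm_div]
        norm_num
        linarith
      · rw [mem_ball, dist_eq_norm]
        have e : (b i + b j) / 2 - b j = (b i - b j) / 2 := by ring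
        rw [e, norm_div]
        norm_num
        linarith
    exact Set.disjoint_left.1 hd hmid.1 hmid.2

/-- Lower bound. -/
theorem lower {k : ℕ} (hk : 1 ≤ k) {c : ℂ} {R : ℝ}
    (h : Accommodates (closedBall c R)
      (fun _ : Fin k => closedBall (0 : ℂ) (1 / (2 * Real.pi)))) :
    kappa * √k - 1 / 40 ≤ R := by
  have hπ0 := Real.pi_pos
  have hr : 0 < 1 / (2 * Real.pi) := by positivity
  obtain ⟨hrR, b, hb1, hb2⟩ := centres hk hr h
  set r : ℝ := 1 / (2 * Real.pi) with hrdef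
  have hinj : Function.Injective b := by
    intro i j hij
    by_contra hne
    have := hb2 i j hne
    rw [hij, dist_self] at this
    linarith
  have key := thue (Finset.univ.image b) c (R := R - r) hr (by linarith)
    (by
      intro z hz
      obtain ⟨i, -, rfl⟩ := Finset.mem_image.1 hz
      exact hb1 i)
    (by
      intro z hz w hw hne
      obtain ⟨i, -, rfl⟩ := Finset.mem_image.1 hz
      obtain ⟨j, -, rfl⟩ := Finset.mem_image.1 hw
      exact hb2 i j (fun h => hne (by rw [h])))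
  rw [Finset.card_image_of_injective _ hinj, Finset.card_univ, Fintype.card_fin] at key
  have h3 : √3 * √3 = 3 := Real.mul_self_sqrt (by norm_num)
  have hs3 : (1.73 : ℝ) ≤ √3 := Real.le_sqrt_of_sq_le (by norm_num)
  have hs0 : 0 < √3 := by linarith
  have e1 : (kappa * √k) ^ 2 = k * (2 * √3 * r ^ 2) / Real.pi := by
    rw [mul_pow, kappa_sq, Real.sq_sqrt (Nat.cast_nonneg k), hrdef]
    field_simp
  have h4 : (kappa * √k) ^ 2 ≤ (R - r + 2 * r / √3) ^ 2 := by
    rw [e1, div_le_iff₀ hπ0]; linarith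
  have h5 : 0 ≤ R - r + 2 * r / √3 := by
    have : 0 ≤ 2 * r / √3 := by positivity
    linarith
  have h6 : kappa * √k ≤ R - r + 2 * r / √3 := by
    exact (abs_le_of_sq_le_sq' h4 h5).2
  have h7 : 2 * r / √3 - r ≤ 1 / 40 := by
    have h8 : r ≤ 1 / 6.28 := by
      rw [hrdef]
      refine one_div_le_one_div_of_le (by norm_num) ?_
      have := Real.pi_gt_d2
      linarith
    have h9 : 2 * r / √3 ≤ 2 * r / 1.73 :=
      div_le_div_of_nonneg_left (by positivity) (by norm_num) hs3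
    have h10 : 2 * r / 1.73 - r = r * (2 / 1.73 - 1) := by ring
    have h11 : r * (2 / 1.73 - 1) ≤ 1 / 6.28 * (2 / 1.73 - 1) :=
      mul_le_mul_of_nonneg_right h8 (by norm_num)
    have h12 : (1 : ℝ) / 6.28 * (2 / 1.73 - 1) ≤ 1 / 40 := by norm_num
    linarith
  linarith

theorem cube_root_ge_one {k : ℕ} (hk : 1 ≤ k) : 1 ≤ (k : ℝ) ^ (1 / 3 : ℝ) :=
  Real.one_le_rpow (by exact_mod_cast hk) (by norm_num)

theorem isUnit_disk : IsUnitConvexSet (closedBall (0 : ℂ) (1 / (2 * Real.pi))) :=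
  isUnitConvexSet_disk

theorem mem_allRadii {k : ℕ} (hk : 1 ≤ k) :
    kappa * √k + 11000 * (k : ℝ) ^ (1 / 3 : ℝ) ∈ allRadii k := by
  refine ⟨?_, fun K hK => upper hk le_rfl K hK 0⟩
  have := kappa_pos
  positivity

theorem allRadii_subset (k : ℕ) : allRadii k ⊆ diskRadii k :=
  fun _ h => ⟨h.1, h.2 _ fun _ => isUnit_disk⟩

theorem bdd (k : ℕ) : BddBelow (diskRadii k) := ⟨0, fun _ h => h.1⟩

theorem rho_le_bigR {k : ℕ} (hk : 1 ≤ k) : rho k ≤ bigR k :=
  csInf_le_csInf (bdd k) ⟨_, mem_allRadii hk⟩ (allRadii_subset k)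

theorem bigR_le {k : ℕ} (hk : 1 ≤ k) :
    bigR k ≤ kappa * √k + 11000 * (k : ℝ) ^ (1 / 3 : ℝ) :=
  csInf_le ((bdd k).mono (allRadii_subset k)) (mem_allRadii hk)

theorem le_rho {k : ℕ} (hk : 1 ≤ k) : kappa * √k - 1 / 40 ≤ rho k :=
  le_csInf ⟨_, allRadii_subset k (mem_allRadii hk)⟩ fun _ h => lower hk h.2

theorem main {k : ℕ} (hk : 1 ≤ k) :
    kappa * √k - 1 / 40 ≤ rho k ∧ rho k ≤ bigR k ∧
      bigR k ≤ kappa * √k + 11000 * (k : ℝ) ^ (1 / 3 : ℝ) ∧
      bigR k ≤ rho k + 11001 * (k : ℝ) ^ (1 / 3 : ℝ) := by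
  refine ⟨le_rho hk, rho_le_bigR hk, bigR_le hk, ?_⟩
  linarith [le_rho hk, bigR_le hk, cube_root_ge_one hk]

theorem tendsto_error :
    Filter.Tendsto (fun k : ℕ => (k : ℝ) ^ (1 / 3 : ℝ) / √k) Filter.atTop (nhds 0) := by
  have h1 : Filter.Tendsto (fun k : ℕ => (k : ℝ) ^ (-(1 / 6) : ℝ)) Filter.atTop (nhds 0) :=
    (tendsto_rpow_neg_atTop (by norm_num)).comp tendsto_natCast_atTop_atTop
  refine h1.congr' ?_
  filter_upwards [Filter.eventually_ge_atTop 1] with k hk
  have hk0 : (0 : ℝ) < k := by exact_mod_cast hk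
  rw [Real.sqrt_eq_rpow, ← Real.rpow_sub hk0]
  norm_num

theorem tendsto_of_bounds {f : ℕ → ℝ}
    (h1 : ∀ k : ℕ, 1 ≤ k → kappa * √k - 1 / 40 ≤ f k)
    (h2 : ∀ k : ℕ, 1 ≤ k → f k ≤ kappa * √k + 11000 * (k : ℝ) ^ (1 / 3 : ℝ)) :
    Filter.Tendsto (fun k : ℕ => f k / √k) Filter.atTop (nhds kappa) := by
  have hlo : Filter.Tendsto (fun k : ℕ => kappa - 1 * ((k : ℝ) ^ (1 / 3 : ℝ) / √k)) Filter.atTop
      (nhds (kappa - 1 * 0)) := tendsto_const_nhds.sub (tendsto_error.const_mul 1)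
  have hhi : Filter.Tendsto (fun k : ℕ => kappa + 11000 * ((k : ℝ) ^ (1 / 3 : ℝ) / √k))
      Filter.atTop (nhds (kappa + 11000 * 0)) :=
    tendsto_const_nhds.add (tendsto_error.const_mul 11000)
  rw [mul_zero, sub_zero] at hlo
  rw [mul_zero, add_zero] at hhi
  refine tendsto_of_tendsto_of_tendsto_of_le_of_le' hlo hhi ?_ ?_
  · filter_upwards [Filter.eventually_ge_atTop 1] with k hk
    have hk0 : (0 : ℝ) < √k := Real.sqrt_pos.2 (by exact_mod_cast hk)
    rw [le_div_iff₀ hk0, sub_mul, mul_assoc, div_mul_cancel₀ _ hk0.ne']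
    linarith [h1 k hk, cube_root_ge_one hk]
  · filter_upwards [Filter.eventually_ge_atTop 1] with k hk
    have hk0 : (0 : ℝ) < √k := Real.sqrt_pos.2 (by exact_mod_cast hk)
    rw [div_le_iff₀ hk0, add_mul, mul_assoc, div_mul_cancel₀ _ hk0.ne']
    linarith [h2 k hk]

theorem tendsto_rho :
    Filter.Tendsto (fun k : ℕ => rho k / √k) Filter.atTop (nhds kappa) :=
  tendsto_of_bounds (fun _ hk => le_rho hk) fun _ hk => (rho_le_bigR hk).trans (bigR_le hk)

theorem tendsto_bigR :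
    Filter.Tendsto (fun k : ℕ => bigR k / √k) Filter.atTop (nhds kappa) :=
  tendsto_of_bounds (fun _ hk => (le_rho hk).trans (rho_le_bigR hk)) fun _ hk => bigR_le hk

theorem tendsto_ratio :
    Filter.Tendsto (fun k : ℕ => bigR k / rho k) Filter.atTop (nhds 1) := by
  have h := tendsto_bigR.div tendsto_rho kappa_pos.ne'
  rw [div_self kappa_pos.ne'] at h
  refine h.congr' ?_
  filter_upwards [Filter.eventually_ge_atTop 1] with k hk
  have hk0 : (0 : ℝ) < √k := Real.sqrt_pos.2 (by exact_mod_cast hk)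
  exact div_div_div_cancel_right₀ hk0.ne' _ _

end Pool.Agent.Helper79.PK
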