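import Pool.Agent.Helper79.PK.Sep

/-!
# PK-G: counting blocks in a disk
-/

namespace Pool.Agent.Helper79.PK

open Pool.Agent.Helper16.Disk7 MeasureTheory Metric

namespace Grid

/-- The linear map `a + b i ↦ pt a b`. -/
noncomputable def f : ℂ →ₗ[ℝ] ℂ :=
  Matrix.toLin Complex.basisOneI Complex.basisOneI !![1, 0; 1 / √3, 2 / √3]

lemma det_f : LinearMap.det f = 2 / √3 := by
  rw [f, LinearMap.det_toLin, Matrix.det_fin_two_of]; ring

lemma f_apply (z : ℂ) : f z = pt z.re z.im := by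
  have h : z = z.re • (1 : ℂ) + z.im • Complex.I := by
    simp [Complex.re_add_im]
  have h1 : f 1 = ⟨1, 1 / √3⟩ := by
    have e : (1 : ℂ) = Complex.basisOneI 0 := by simp
    rw [e, f, Matrix.toLin_self]
    simp [Fin.sum_univ_two]
    apply Complex.ext
    · simp
    · have h3 : √3 * √3 = 3 := Real.mul_self_sqrt (by norm_num)
      have h30 : 0 < √3 := by positivity
      simp
      rw [inv_eq_one_div, div_eq_div_iff (by norm_num) h30.ne']
      linarith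
  have h2 : f Complex.I = ⟨0, 2 / √3⟩ := by
    have e : Complex.I = Complex.basisOneI 1 := by simp
    rw [e, f, Matrix.toLin_self]
    simp [Fin.sum_univ_two]
    apply Complex.ext <;> simp
  conv_lhs => rw [h]
  rw [map_add, map_smul, map_smul, h1, h2]
  apply Complex.ext
  · simp [pt]
  · simp [pt]
    ring

lemma pt_XY (z : ℂ) : pt (X z) (Y z) = z := by
  have h3 : √3 ≠ 0 := by positivity
  apply Complex.ext
  · rfl
  · simp only [pt, X, Y]
    field_simp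
    ring

lemma volume_box (s t : Set ℝ) : volume (s ×ℂ t) = volume s * volume t := by
  have h := Complex.volume_preserving_equiv_real_prod.measure_preimage_equiv (s ×ˢ t)
  rw [Measure.volume_eq_prod, Measure.prod_prod] at h
  rw [← h]
  rfl

lemma volume_block (ℓ : ℝ) (hℓ : 0 < ℓ) (p : ℤ × ℤ) :
    volume (f '' (Set.Icc (p.1 * ℓ) ((p.1 + 1) * ℓ) ×ℂ Set.Icc (p.2 * ℓ) ((p.2 + 1) * ℓ))) =
      ENNReal.ofReal (2 / √3 * ℓ ^ 2) := by
  rw [Measure.addHaar_image_linearMap, det_f, volume_box, Real.volume_Icc, Real.volume_Icc,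
    abs_of_pos (by positivity), ← ENNReal.ofReal_mul (by nlinarith),
    ← ENNReal.ofReal_mul (by positivity)]
  congr 1
  ring

lemma norm_sq_XY (z : ℂ) : ‖z‖ ^ 2 = X z ^ 2 + 4 / 3 * (Y z + X z / 2) ^ 2 := by
  have h3 : √3 * √3 = 3 := Real.mul_self_sqrt (by norm_num)
  rw [Complex.sq_norm, Complex.normSq_apply]
  simp only [X, Y]
  linear_combination (-(1 : ℝ) / 3 * z.im ^ 2) * h3

lemma abs_X_le (z : ℂ) : |X z| ≤ ‖z‖ := Complex.abs_re_le_norm z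

lemma abs_Y_le (z : ℂ) : |Y z| ≤ ‖z‖ := by
  refine abs_le_of_sq_le_sq ?_ (norm_nonneg _)
  rw [norm_sq_XY]
  nlinarith [sq_nonneg (X z + Y z / 2)]

end Grid

open Grid

/-- PK-G. Counting blocks in a disk. -/
theorem grid_count {ℓ R : ℝ} (hℓ : 0 < ℓ) (hR : 2 * ℓ ≤ R) :
    ∃ G : Finset (ℤ × ℤ), √3 / 2 * Real.pi * (R - 2 * ℓ) ^ 2 ≤ (G.card : ℝ) * ℓ ^ 2 ∧
      ∀ p ∈ G, ∀ z : ℂ, (p.1 : ℝ) * ℓ ≤ X z → X z ≤ ((p.1 : ℝ) + 1) * ℓ →
        (p.2 : ℝ) * ℓ ≤ Y z → Y z ≤ ((p.2 : ℝ) + 1) * ℓ → ‖z‖ ≤ R := by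
  classical
  obtain ⟨N, hN⟩ : ∃ N : ℤ, R / ℓ + 1 ≤ (N : ℝ) := ⟨⌈R / ℓ + 1⌉, Int.le_ceil _⟩
  let G : Finset (ℤ × ℤ) := (Finset.Icc (-N) N ×ˢ Finset.Icc (-N) N).filter fun p =>
    ∀ z : ℂ, (p.1 : ℝ) * ℓ ≤ X z → X z ≤ ((p.1 : ℝ) + 1) * ℓ →
        (p.2 : ℝ) * ℓ ≤ Y z → Y z ≤ ((p.2 : ℝ) + 1) * ℓ → ‖z‖ ≤ R
  refine ⟨G, ?_, fun p hp => (Finset.mem_filter.1 hp).2⟩
  have hrange : ∀ a : ℝ, |a| ≤ R → -N ≤ ⌊a / ℓ⌋ ∧ ⌊a / ℓ⌋ ≤ N := by
    intro a ha
    obtain ⟨a1, a2⟩ := abs_le.1 ha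
    have b1 : a / ℓ ≤ R / ℓ := div_le_div_of_nonneg_right a2 hℓ.le
    have b2 : -(R / ℓ) ≤ a / ℓ := by
      rw [← neg_div]; exact div_le_div_of_nonneg_right a1 hℓ.le
    constructor
    · rw [Int.le_floor]; push_cast; linarith
    · have : (⌊a / ℓ⌋ : ℝ) ≤ N := (Int.floor_le _).trans (by linarith)
      exact_mod_cast this
  have hfl : ∀ a : ℝ, (⌊a / ℓ⌋ : ℝ) * ℓ ≤ a ∧ a ≤ ((⌊a / ℓ⌋ : ℝ) + 1) * ℓ := by
    intro a
    have b1 := Int.floor_le (a / ℓ)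
    have b2 := (Int.lt_floor_add_one (a / ℓ)).le
    rw [le_div_iff₀ hℓ] at b1
    rw [div_le_iff₀ hℓ] at b2
    exact ⟨b1, b2⟩
  have hcov : closedBall (0 : ℂ) (R - 2 * ℓ) ⊆ ⋃ p ∈ G,
      f '' (Set.Icc ((p.1 : ℝ) * ℓ) ((p.1 + 1) * ℓ) ×ℂ
        Set.Icc ((p.2 : ℝ) * ℓ) ((p.2 + 1) * ℓ)) := by
    intro z hz
    rw [mem_closedBall_zero_iff] at hz
    have hx := hfl (X z)
    have hy := hfl (Y z)
    refine Set.mem_iUnion₂.2 ⟨(⌊X z / ℓ⌋, ⌊Y z / ℓ⌋), ?_, ?_⟩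
    · refine Finset.mem_filter.2 ⟨?_, ?_⟩
      · rw [Finset.mem_product, Finset.mem_Icc, Finset.mem_Icc]
        exact ⟨hrange _ ((abs_X_le z).trans (by linarith)),
          hrange _ ((abs_Y_le z).trans (by linarith))⟩
      · intro w w1 w2 w3 w4
        simp only at w1 w2 w3 w4
        have hwz : ‖w - z‖ ≤ 2 * ℓ := by
          refine abs_le_of_sq_le_sq' ?_ (by positivity) |>.2
          rw [norm_sq_XY]
          have eX : X (w - z) = X w - X z := by simp [X]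
          have eY : Y (w - z) = Y w - Y z := by simp only [Y, Complex.sub_re, Complex.sub_im]; ring
          rw [eX, eY]
          have c1 : |X w - X z| ≤ ℓ := by rw [abs_le]; constructor <;> nlinarith
          have c2 : |Y w - Y z| ≤ ℓ := by rw [abs_le]; constructor <;> nlinarith
          have c3 : (X w - X z) ^ 2 ≤ ℓ ^ 2 := sq_le_sq' (abs_le.1 c1).1 (abs_le.1 c1).2
          have c4 : (Y w - Y z + (X w - X z) / 2) ^ 2 ≤ (3 / 2 * ℓ) ^ 2 := by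
            obtain ⟨d1, d2⟩ := abs_le.1 c1
            obtain ⟨d3, d4⟩ := abs_le.1 c2
            exact sq_le_sq' (by linarith) (by linarith)
          nlinarith
        have : w = z + (w - z) := by ring
        rw [this]
        exact (norm_add_le _ _).trans (by linarith)
    · refine ⟨⟨X z, Y z⟩, ?_, ?_⟩
      · rw [Complex.mem_reProdIm]
        exact ⟨hx, hy⟩
      · rw [f_apply]; exact pt_XY z
  have hle : volume (closedBall (0 : ℂ) (R - 2 * ℓ)) ≤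
      (G.card : ENNReal) * ENNReal.ofReal (2 / √3 * ℓ ^ 2) := by
    refine (measure_mono hcov).trans ((measure_biUnion_finset_le _ _).trans ?_)
    rw [Finset.sum_congr rfl fun p _ => volume_block ℓ hℓ p, Finset.sum_const, nsmul_eq_mul]
  rw [Complex.volume_closedBall] at hle
  have e1 : (G.card : ENNReal) * ENNReal.ofReal (2 / √3 * ℓ ^ 2) =
      ENNReal.ofReal ((G.card : ℝ) * (2 / √3 * ℓ ^ 2)) := by
    rw [ENNReal.ofReal_mul (Nat.cast_nonneg G.card), ENNReal.ofReal_natCast]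
  have e2 : ENNReal.ofReal (R - 2 * ℓ) ^ 2 * (NNReal.pi : ENNReal) =
      ENNReal.ofReal ((R - 2 * ℓ) ^ 2 * Real.pi) := by
    rw [ENNReal.ofReal_mul (by positivity), ENNReal.ofReal_pow (by linarith)]
    congr 1
    rw [← NNReal.coe_real_pi, ENNReal.ofReal_coe_nnreal]
  rw [e1, e2, ENNReal.ofReal_le_ofReal_iff (by positivity)] at hle
  have h3 : √3 * √3 = 3 := Real.mul_self_sqrt (by norm_num)
  have h30 : 0 < √3 := by positivity
  have e3 : (G.card : ℝ) * ℓ ^ 2 = √3 / 2 * ((G.card : ℝ) * (2 / √3 * ℓ ^ 2)) := by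
    field_simp
  rw [e3, mul_assoc, mul_comm Real.pi]
  exact mul_le_mul_of_nonneg_left hle (by positivity)

end Pool.Agent.Helper79.PK
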