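import Pool.Agent.Helper79.PK.Sep
import Pool.Agent.Helper46.PK.Widths
import Pool.Agent.Helper14.PK.L
import Pool.Agent.Helper55.PK.Assign
import Pool.Agent.Helper79.PK.Grid

/-!
# The placement theorem
-/

namespace Pool.Agent.Helper79.PK

open Pool.Agent.Helper16.Disk7 MeasureTheory Metric

/-- Rounding of the widths. -/
theorem rounding {m : ℕ} (hm : 1 ≤ m) {w0 w1 w2 ζ : ℝ} (h0 : 0 ≤ w0) (h1 : 0 ≤ w1)
    (h2 : 0 ≤ w2) (hs : w0 + w1 + w2 ≤ 3 / Real.pi) (hd : |w0 - w2| ≤ w1) (hζ : 0 ≤ ζ)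
    (hζ1 : ζ ≤ 1) :
    ∃ (a b : Fin m) (c : Fin (m + 1)),
      w0 ≤ ((a : ℕ) + 1 : ℝ) / m ∧ w2 ≤ ((b : ℕ) + 1 : ℝ) / m ∧ ((c : ℕ) : ℝ) / m ≤ ζ ∧
      ζ + w1 ≤ ((c : ℕ) : ℝ) / m +
        (3 / Real.pi + 3 / m - ((a : ℕ) + 1 : ℝ) / m - ((b : ℕ) + 1 : ℝ) / m) ∧
      |((a : ℕ) + 1 : ℝ) / m - ((b : ℕ) + 1 : ℝ) / m| ≤
        3 / Real.pi + 3 / m - ((a : ℕ) + 1 : ℝ) / m - ((b : ℕ) + 1 : ℝ) / m ∧
      0 < 3 / Real.pi + 3 / m - ((a : ℕ) + 1 : ℝ) / m - ((b : ℕ) + 1 : ℝ) / m := by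
  have hm0 : (0 : ℝ) < m := by exact_mod_cast hm
  have hpi : 3 / Real.pi < 1 := by
    rw [div_lt_one Real.pi_pos]; exact Real.pi_gt_three
  have hw0 : w0 < 1 := by linarith
  have hw2 : w2 < 1 := by linarith
  have ha : ⌊(m : ℝ) * w0⌋₊ < m := by
    rw [Nat.floor_lt (by positivity)]; nlinarith
  have hb : ⌊(m : ℝ) * w2⌋₊ < m := by
    rw [Nat.floor_lt (by positivity)]; nlinarith
  have hc : ⌊(m : ℝ) * ζ⌋₊ < m + 1 := by
    rw [Nat.floor_lt (by positivity)]; push_cast; nlinarith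
  refine ⟨⟨_, ha⟩, ⟨_, hb⟩, ⟨_, hc⟩, ?_⟩
  simp only
  have a1 := Nat.lt_floor_add_one ((m : ℝ) * w0)
  have a2 := Nat.floor_le (by positivity : 0 ≤ (m : ℝ) * w0)
  have b1 := Nat.lt_floor_add_one ((m : ℝ) * w2)
  have b2 := Nat.floor_le (by positivity : 0 ≤ (m : ℝ) * w2)
  have c1 := Nat.lt_floor_add_one ((m : ℝ) * ζ)
  have c2 := Nat.floor_le (by positivity : 0 ≤ (m : ℝ) * ζ)
  set A : ℝ := ((⌊(m : ℝ) * w0⌋₊ : ℕ) + 1 : ℝ) / m with hA
  set B : ℝ := ((⌊(m : ℝ) * w2⌋₊ : ℕ) + 1 : ℝ) / m with hB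
  set C : ℝ := ((⌊(m : ℝ) * ζ⌋₊ : ℕ) : ℝ) / m with hC
  have hA1 : w0 ≤ A := by rw [hA, le_div_iff₀ hm0]; linarith
  have hA2 : A ≤ w0 + 1 / m := by
    rw [hA, div_le_iff₀ hm0, add_mul, div_mul_cancel₀ _ hm0.ne']; linarith
  have hB1 : w2 ≤ B := by rw [hB, le_div_iff₀ hm0]; linarith
  have hB2 : B ≤ w2 + 1 / m := by
    rw [hB, div_le_iff₀ hm0, add_mul, div_mul_cancel₀ _ hm0.ne']; linarith
  have hC1 : C ≤ ζ := by rw [hC, div_le_iff₀ hm0]; linarith
  have hC2 : ζ ≤ C + 1 / m := by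
    rw [hC, ← add_div, le_div_iff₀ hm0]; linarith
  have h3 : (3 : ℝ) / m = 1 / m + 1 / m + 1 / m := by ring
  have hpos : (0 : ℝ) < 1 / m := by positivity
  obtain ⟨d1, d2⟩ := abs_le.1 hd
  refine ⟨hA1, hB1, hC1, by linarith, ?_, by linarith⟩
  rw [abs_le]
  constructor <;> linarith

/-- The placement theorem. -/
theorem place {k m : ℕ} (hm : 1 ≤ m) {ℓ R : ℝ} (hℓ : 6 < ℓ) (hR : 2 * ℓ ≤ R)
    (h : (k : ℝ) * ((3 / Real.pi + 3 / m) ^ 2 / 12) / (ℓ - 6) ^ 2 + (m : ℝ) * m * (m + 1) ≤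
      √3 / 2 * Real.pi * (R - 2 * ℓ) ^ 2 / ℓ ^ 2)
    (K : Fin k → Set ℂ) (hK : ∀ i, IsUnitConvexSet (K i)) (c : ℂ) :
    Accommodates (closedBall c R) K := by
  classical
  have hm0 : (0 : ℝ) < m := by exact_mod_cast hm
  have hpi := Real.pi_pos
  set S0 : ℝ := 3 / Real.pi + 3 / m with hS0
  have hS0pos : 0 < S0 := by positivity
  have hℓ6 : 0 < ℓ - 6 := by linarith
  have hℓ0 : 0 < ℓ := by linarith
  set μ : ℝ := 12 * (ℓ - 6) ^ 2 / S0 ^ 2 with hμ
  have hμ0 : 0 < μ := by positivity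
  set M : ℕ := ⌈μ⌉₊ with hM
  have hMpos : 0 < M := Nat.ceil_pos.2 hμ0
  have hMμ : μ ≤ M := Nat.le_ceil μ
  obtain ⟨G, hG, hGin⟩ := grid_count hℓ0 hR
  -- types
  let T := Fin m × Fin m × Fin (m + 1)
  let W0 : T → ℝ := fun τ => (((τ.1 : Fin m) : ℕ) + 1 : ℝ) / m
  let W2 : T → ℝ := fun τ => (((τ.2.1 : Fin m) : ℕ) + 1 : ℝ) / m
  let Z : T → ℝ := fun τ => (((τ.2.2 : Fin (m + 1)) : ℕ) : ℝ) / m
  let W1 : T → ℝ := fun τ => S0 - W0 τ - W2 τ
  let tt : T → ℝ := fun τ => max 0 ((W0 τ + W2 τ - W1 τ) / 2)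
  have hW0 : ∀ τ, 0 < W0 τ := fun τ => by positivity
  have hW2 : ∀ τ, 0 < W2 τ := fun τ => by positivity
  have hW0' : ∀ τ, W0 τ ≤ 1 := fun τ => by
    simp only [W0]
    rw [div_le_one hm0]
    exact_mod_cast τ.1.2
  have hW2' : ∀ τ, W2 τ ≤ 1 := fun τ => by
    simp only [W2]
    rw [div_le_one hm0]
    exact_mod_cast τ.2.1.2
  choose g hg w0 w1 w2 ζ h0 h1 h2 hs hd hζ hζ1 hin using fun i => widths (hK i)
  choose a b cc r0 r2 r3 r4 r5 r6 using
    fun i => rounding hm (h0 i) (h1 i) (h2 i) (hs i) (hd i) (hζ i) (hζ1 i)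
  let ty : Fin k → T := fun i => (a i, b i, cc i)
  -- slots
  have hslots : ∀ τ : T, ∃ e : Fin M → ℤ × ℤ, |W0 τ - W2 τ| ≤ W1 τ → 0 < W1 τ →
      Function.Injective e ∧ ∀ s, 0 ≤ ((e s).1 : ℝ) * W0 τ - (e s).2 * tt τ ∧
        ((e s).1 : ℝ) * W0 τ - (e s).2 * tt τ ≤ ℓ - 2 ∧
        0 ≤ -((e s).1 : ℝ) * tt τ + (e s).2 * W2 τ ∧
        -((e s).1 : ℝ) * tt τ + (e s).2 * W2 τ ≤ ℓ - 2 := by
    intro τ
    by_cases hgood : |W0 τ - W2 τ| ≤ W1 τ ∧ 0 < W1 τ
    · obtain ⟨c1, c2, c3, c4, c5⟩ := cell_area (hW0 τ) (hW2 τ) hgood.1 hgood.2 (t := tt τ) rfl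
      obtain ⟨Q, hQ, hQin⟩ := lattice_count (hW0 τ) (hW2 τ) c3 c4 c5 c1
        (by linarith [hW0' τ]) (by linarith [hW2' τ]) hℓ.le
      have hcard : M ≤ Q.card := by
        rw [hM, Nat.ceil_le, hμ, div_le_iff₀ (by positivity)]
        have e : W0 τ + W1 τ + W2 τ = S0 := by simp only [W1]; ring
        rw [e] at c2
        have : (Q.card : ℝ) * (W0 τ * W2 τ - tt τ ^ 2) ≤ Q.card * (S0 ^ 2 / 12) :=
          mul_le_mul_of_nonneg_left c2 (Nat.cast_nonneg _)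
        linarith
      obtain ⟨Q', hQ', hQc⟩ := Finset.exists_subset_card_eq hcard
      refine ⟨fun s => ((Q'.equivFinOfCardEq hQc).symm s : ℤ × ℤ), fun _ _ => ⟨?_, ?_⟩⟩
      · intro s s' hss
        exact (Q'.equivFinOfCardEq hQc).symm.injective (Subtype.ext hss)
      · intro s
        exact hQin _ (hQ' ((Q'.equivFinOfCardEq hQc).symm s).2)
    · exact ⟨fun _ => (0, 0), fun h1 h2 => absurd ⟨h1, h2⟩ hgood⟩
  choose e he using hslots
  -- assignment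
  have hN : Fintype.card T = m * (m * (m + 1)) := by
    simp [T, Fintype.card_prod, Fintype.card_fin]
  let E : T ≃ Fin (m * (m * (m + 1))) := Fintype.equivFinOfCardEq hN
  have hB : k + m * (m * (m + 1)) * M ≤ G.card * M := by
    have hB1 : (k : ℝ) / μ + (m : ℝ) * m * (m + 1) ≤ G.card := by
      have e1 : (k : ℝ) / μ = (k : ℝ) * (S0 ^ 2 / 12) / (ℓ - 6) ^ 2 := by
        rw [hμ]; field_simp
      rw [e1]
      refine h.trans ?_
      rw [div_le_iff₀ (by positivity)]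
      exact hG
    have hB2 : (k : ℝ) ≤ (k : ℝ) / μ * M := by
      rw [div_mul_eq_mul_div, le_div_iff₀ hμ0]
      exact mul_le_mul_of_nonneg_left hMμ (Nat.cast_nonneg _)
    have hB3 : ((k : ℝ) / μ + (m : ℝ) * m * (m + 1)) * M ≤ G.card * M :=
      mul_le_mul_of_nonneg_right hB1 (Nat.cast_nonneg _)
    have : ((k + m * (m * (m + 1)) * M : ℕ) : ℝ) ≤ ((G.card * M : ℕ) : ℝ) := by
      push_cast
      nlinarith
    exact_mod_cast this
  obtain ⟨f, hf, hft⟩ := assign (fun i => E (ty i)) hMpos hB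
  let blk : Fin G.card → ℤ × ℤ := fun s => ((G.equivFin.symm s : G) : ℤ × ℤ)
  have hblk : ∀ s, blk s ∈ G := fun s => (G.equivFin.symm s).2
  have hblkinj : Function.Injective blk := fun s s' hss =>
    G.equivFin.symm.injective (Subtype.ext hss)
  -- coordinates of the corner of the cell of the i-th set
  let PX : Fin k → ℝ := fun i => ((e (ty i) (f i).2).1 : ℝ) * W0 (ty i) -
    (e (ty i) (f i).2).2 * tt (ty i)
  let PY : Fin k → ℝ := fun i => -((e (ty i) (f i).2).1 : ℝ) * tt (ty i) +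
    (e (ty i) (f i).2).2 * W2 (ty i)
  have hgoodi : ∀ i, |W0 (ty i) - W2 (ty i)| ≤ W1 (ty i) ∧ 0 < W1 (ty i) := fun i =>
    ⟨r5 i, r6 i⟩
  have hP : ∀ i, 0 ≤ PX i ∧ PX i ≤ ℓ - 2 ∧ 0 ≤ PY i ∧ PY i ≤ ℓ - 2 := fun i =>
    (he (ty i) (hgoodi i).1 (hgoodi i).2).2 _
  let CX : Fin k → ℝ := fun i => ((blk (f i).1).1 : ℝ) * ℓ + PX i
  let CY : Fin k → ℝ := fun i => ((blk (f i).1).2 : ℝ) * ℓ + PY i
  -- the sets, before the final translation by `c`
  let L : Fin k → Set ℂ := fun i => (fun z => g i z + pt (CX i) (CY i)) '' K i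
  have hcell : ∀ i, ∀ z ∈ L i,
      InCell (W0 (ty i)) (W1 (ty i)) (W2 (ty i)) (Z (ty i)) (CX i) (CY i) z := by
    rintro i z ⟨y, hy, rfl⟩
    obtain ⟨q1, q2, q3, q4, q5, q6⟩ := hin i (g i y) ⟨y, hy, rfl⟩
    have p0 := r0 i
    have p2 := r2 i
    have p3 := r3 i
    have p4 := r4 i
    simp only [InCell, X_add, Y_add, X_pt, Y_pt]
    have e0 : W0 (ty i) = (((a i : Fin m) : ℕ) + 1 : ℝ) / m := rfl
    have e2 : W2 (ty i) = (((b i : Fin m) : ℕ) + 1 : ℝ) / m := rfl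
    have e3 : Z (ty i) = (((cc i : Fin (m + 1)) : ℕ) : ℝ) / m := rfl
    have e4 : W1 (ty i) = S0 - W0 (ty i) - W2 (ty i) := rfl
    rw [← e0, ← e2, ← e3] at p4
    rw [← e0] at p0
    rw [← e2] at p2
    rw [← e3] at p3
    rw [e4]
    refine ⟨by linarith, by linarith, by linarith, by linarith, by linarith, by linarith⟩
  have hLR : ∀ i, ∀ z ∈ L i, ‖z‖ ≤ R := by
    intro i z hz
    obtain ⟨q1, q2, q3, q4, -, -⟩ := hcell i z hz
    obtain ⟨u1, u2, u3, u4⟩ := hP i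
    have v0 := hW0' (ty i)
    have v2 := hW2' (ty i)
    refine hGin _ (hblk (f i).1) z ?_ ?_ ?_ ?_
    · simp only [CX] at q1; linarith
    · simp only [CX] at q2; linarith
    · simp only [CY] at q3; linarith
    · simp only [CY] at q4; linarith
  have hLdisj : ∀ i j, i ≠ j → Disjoint (interior (L i)) (interior (L j)) := by
    intro i j hij
    by_cases hb' : (f i).1 = (f j).1
    · have hty : ty i = ty j := E.injective (hft i j hb')
      have hne : (f i).2 ≠ (f j).2 := fun h' => hij (hf (Prod.ext hb' h'))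
      have hene : e (ty i) (f i).2 ≠ e (ty i) (f j).2 := fun h' =>
        hne ((he (ty i) (hgoodi i).1 (hgoodi i).2).1 h')
      have hcj := hcell j
      rw [← hty] at hcj
      refine sep_cells (hcell i) hcj ?_
      have hls := lattice_sep (hW0 (ty i)) (hW2 (ty i)) (hgoodi i).1 (t := tt (ty i)) rfl
        (m := (e (ty i) (f i).2).1 - (e (ty i) (f j).2).1)
        (n := (e (ty i) (f i).2).2 - (e (ty i) (f j).2).2) (by
          rintro ⟨hx, hy⟩
          exact hene (Prod.ext (by omega) (by omega)))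
      have ex : CX i - CX j = (((e (ty i) (f i).2).1 - (e (ty i) (f j).2).1 : ℤ) : ℝ) *
          W0 (ty i) - (((e (ty i) (f i).2).2 - (e (ty i) (f j).2).2 : ℤ) : ℝ) * tt (ty i) := by
        simp only [CX, PX, hb', ← hty]; push_cast; ring
      have ey : CY i - CY j = -(((e (ty i) (f i).2).1 - (e (ty i) (f j).2).1 : ℤ) : ℝ) *
          tt (ty i) + (((e (ty i) (f i).2).2 - (e (ty i) (f j).2).2 : ℤ) : ℝ) * W2 (ty i) := by
        simp only [CY, PY, hb', ← hty]; push_cast; ring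
      rw [ex, ey]
      exact hls
    · have hbb : blk (f i).1 ≠ blk (f j).1 := fun h' => hb' (hblkinj h')
      have bounds : ∀ i, ∀ z ∈ L i, ((blk (f i).1).1 : ℝ) * ℓ ≤ X z ∧
          X z ≤ (((blk (f i).1).1 : ℝ) + 1) * ℓ ∧ ((blk (f i).1).2 : ℝ) * ℓ ≤ Y z ∧
          Y z ≤ (((blk (f i).1).2 : ℝ) + 1) * ℓ := by
        intro i z hz
        obtain ⟨q1, q2, q3, q4, -, -⟩ := hcell i z hz
        obtain ⟨u1, u2, u3, u4⟩ := hP i
        have v0 := hW0' (ty i)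
        have v2 := hW2' (ty i)
        simp only [CX] at q1 q2
        simp only [CY] at q3 q4
        refine ⟨by linarith, by linarith, by linarith, by linarith⟩
      have key : ∀ p q : ℤ, p < q → ((p : ℝ) + 1) * ℓ ≤ (q : ℝ) * ℓ := by
        intro p q hpq
        have : (p : ℝ) + 1 ≤ q := by exact_mod_cast hpq
        exact mul_le_mul_of_nonneg_right this hℓ0.le
      rcases lt_trichotomy (blk (f i).1).1 (blk (f j).1).1 with hx | hx | hx
      · exact sep_X (c := ((blk (f j).1).1 : ℝ) * ℓ)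
          (fun z hz => (bounds i z hz).2.1.trans (key _ _ hx)) (fun z hz => (bounds j z hz).1)
      · rcases lt_trichotomy (blk (f i).1).2 (blk (f j).1).2 with hy | hy | hy
        · exact sep_Y (c := ((blk (f j).1).2 : ℝ) * ℓ)
            (fun z hz => (bounds i z hz).2.2.2.trans (key _ _ hy))
            (fun z hz => (bounds j z hz).2.2.1)
        · exact absurd (Prod.ext hx hy) hbb
        · exact (sep_Y (c := ((blk (f i).1).2 : ℝ) * ℓ)
            (fun z hz => (bounds j z hz).2.2.2.trans (key _ _ hy))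
            (fun z hz => (bounds i z hz).2.2.1)).symm
      · exact (sep_X (c := ((blk (f i).1).1 : ℝ) * ℓ)
          (fun z hz => (bounds j z hz).2.1.trans (key _ _ hx))
          (fun z hz => (bounds i z hz).1)).symm
  -- final translation
  have himg : ∀ i, (fun z => g i z + pt (CX i) (CY i) + c) '' K i = (fun z => z + c) '' L i := by
    intro i
    simp only [L, Set.image_image]
  refine ⟨fun i z => g i z + pt (CX i) (CY i) + c, ?_, ?_, ?_⟩
  · intro i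
    obtain ⟨u, v, hu, huv⟩ := hg i
    exact ⟨u, v + pt (CX i) (CY i) + c, hu, fun z => by
      show g i z + pt (CX i) (CY i) + c = _
      rw [huv]; ring⟩
  · intro i
    rw [himg]
    rintro z ⟨y, hy, rfl⟩
    rw [mem_closedBall, dist_eq_norm, add_sub_cancel_right]
    exact hLR i y hy
  · intro i j hij
    rw [himg, himg]
    have hh : ∀ s : Set ℂ, interior ((fun z => z + c) '' s) = (fun z => z + c) '' interior s :=
      fun s => ((Homeomorph.addRight c).image_interior s).symm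
    rw [hh, hh]
    exact (Set.disjoint_image_iff (add_left_injective c)).2 (hLdisj i j hij)

end Pool.Agent.Helper79.PK
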