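import Pool.Agent.Helper79.PK.Final

/-!
# Sanity checks for the definitions of `rho` and `bigR`
-/

namespace Pool.Agent.Helper79.PK

open Pool.Agent.Helper16.Disk7 MeasureTheory Metric

/-- `ρ_1 = 1 / (2 * π)`, and it is a minimum. -/
theorem isLeast_rho_one : IsLeast (diskRadii 1) (1 / (2 * Real.pi)) := by
  have hπ0 := Real.pi_pos
  constructor
  · refine ⟨by positivity, fun _ z => 1 * z + 0, fun _ => ⟨1, 0, by simp, fun z => rfl⟩, ?_, ?_⟩
    · intro i; simp
    · intro i j hij; exact absurd (Subsingleton.elim i j) hij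
  · intro R hR
    exact (centres le_rfl (by positivity) hR.2).1

theorem rho_one : rho 1 = 1 / (2 * Real.pi) := isLeast_rho_one.csInf_eq

end Pool.Agent.Helper79.PK
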