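import Pool.Agent.Helper79.PK.Defs

/-!
# Separation of translates
-/

namespace Pool.Agent.Helper79.PK

open Pool.Agent.Helper16.Disk7 MeasureTheory Metric

theorem X_add (z w : ℂ) : X (z + w) = X z + X w := by simp [X]

theorem Y_add (z w : ℂ) : Y (z + w) = Y z + Y w := by
  simp only [Y, Complex.add_re, Complex.add_im]; ring

/-- The point with given coordinates. -/
noncomputable def pt (a b : ℝ) : ℂ := ⟨a, 2 / √3 * (b + a / 2)⟩

theorem X_pt (a b : ℝ) : X (pt a b) = a := rfl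

theorem Y_pt (a b : ℝ) : Y (pt a b) = b := by
  have h3 : √3 ≠ 0 := by positivity
  simp only [Y, pt]
  field_simp
  ring

/-- A real function on the plane which moves linearly in some direction separates interiors. -/
theorem disjoint_interior_of_sep {f : ℂ → ℝ} {v : ℂ} {d : ℝ} (hd : 0 < d)
    (hf : ∀ (z : ℂ) (s : ℝ), f (z + s • v) = f z + s * d) {A B : Set ℂ} {c : ℝ}
    (hA : ∀ z ∈ A, f z ≤ c) (hB : ∀ z ∈ B, c ≤ f z) :
    Disjoint (interior A) (interior B) := by
  rw [Set.disjoint_left]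
  intro p hpA hpB
  have hp1 : f p ≤ c := hA p (interior_subset hpA)
  have hp2 : c ≤ f p := hB p (interior_subset hpB)
  rw [mem_interior_iff_mem_nhds, Metric.mem_nhds_iff] at hpA
  obtain ⟨ε, hε, hball⟩ := hpA
  have hcont : Filter.Tendsto (fun s : ℝ => p + s • v) (nhds 0) (nhds p) := by
    have : Continuous (fun s : ℝ => p + s • v) := by fun_prop
    have h := this.tendsto 0
    simpa using h
  have hev : ∀ᶠ s : ℝ in nhds 0, p + s • v ∈ ball p ε := hcont (ball_mem_nhds p hε)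
  obtain ⟨s, hs1, hs2⟩ : ∃ s : ℝ, p + s • v ∈ ball p ε ∧ 0 < s := by
    rw [Metric.eventually_nhds_iff] at hev
    obtain ⟨δ, hδ, h⟩ := hev
    refine ⟨δ / 2, h ?_, by positivity⟩
    rw [Real.dist_eq, sub_zero, abs_of_pos (by positivity)]
    linarith
  have h1 := hA _ (hball hs1)
  rw [hf] at h1
  nlinarith

theorem sep_X {A B : Set ℂ} {c : ℝ} (hA : ∀ z ∈ A, X z ≤ c) (hB : ∀ z ∈ B, c ≤ X z) :
    Disjoint (interior A) (interior B) := by
  refine disjoint_interior_of_sep (f := X) (v := 1) (d := 1) one_pos ?_ hA hB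
  intro z s
  simp [X]

theorem sep_Y {A B : Set ℂ} {c : ℝ} (hA : ∀ z ∈ A, Y z ≤ c) (hB : ∀ z ∈ B, c ≤ Y z) :
    Disjoint (interior A) (interior B) := by
  refine disjoint_interior_of_sep (f := Y) (v := Complex.I) (d := √3 / 2) (by positivity) ?_ hA hB
  intro z s
  simp [Y]
  ring

theorem sep_XY {A B : Set ℂ} {c : ℝ} (hA : ∀ z ∈ A, X z + Y z ≤ c)
    (hB : ∀ z ∈ B, c ≤ X z + Y z) :
    Disjoint (interior A) (interior B) := by
  refine disjoint_interior_of_sep (f := fun z => X z + Y z) (v := 1) (d := 1 / 2) (by norm_num)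
    ?_ hA hB
  intro z s
  simp [X, Y]
  ring

/-- `z` lies in the hexagonal cell with lower left corner `(a, b)`. -/
def InCell (w0 w1 w2 ζ a b : ℝ) (z : ℂ) : Prop :=
  a ≤ X z ∧ X z ≤ a + w0 ∧ b ≤ Y z ∧ Y z ≤ b + w2 ∧ a + b + ζ ≤ X z + Y z ∧
    X z + Y z ≤ a + b + ζ + w1

theorem sep_cells {w0 w1 w2 ζ a b a' b' : ℝ} {A B : Set ℂ}
    (hA : ∀ z ∈ A, InCell w0 w1 w2 ζ a b z) (hB : ∀ z ∈ B, InCell w0 w1 w2 ζ a' b' z)
    (h : w0 ≤ |a - a'| ∨ w2 ≤ |b - b'| ∨ w1 ≤ |(a - a') + (b - b')|) :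
    Disjoint (interior A) (interior B) := by
  rcases h with h | h | h
  · rcases le_abs.1 h with h | h
    · refine (sep_X (c := a) (A := B) (B := A) ?_ ?_).symm
      · intro z hz; have := (hB z hz).2.1; linarith
      · intro z hz; exact (hA z hz).1
    · refine sep_X (c := a') ?_ ?_
      · intro z hz; have := (hA z hz).2.1; linarith
      · intro z hz; exact (hB z hz).1
  · rcases le_abs.1 h with h | h
    · refine (sep_Y (c := b) (A := B) (B := A) ?_ ?_).symm
      · intro z hz; have := (hB z hz).2.2.2.1; linarith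
      · intro z hz; exact (hA z hz).2.2.1
    · refine sep_Y (c := b') ?_ ?_
      · intro z hz; have := (hA z hz).2.2.2.1; linarith
      · intro z hz; exact (hB z hz).2.2.1
  · rcases le_abs.1 h with h | h
    · refine (sep_XY (c := a + b + ζ) (A := B) (B := A) ?_ ?_).symm
      · intro z hz; have := (hB z hz).2.2.2.2.2; linarith
      · intro z hz; exact (hA z hz).2.2.2.2.1
    · refine sep_XY (c := a' + b' + ζ) ?_ ?_
      · intro z hz; have := (hA z hz).2.2.2.2.2; linarith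
      · intro z hz; exact (hB z hz).2.2.2.2.1

/-- The lattice generated by `(w0, -t)`, `(-t, w2)`, `t = max 0 ((w0 + w2 - w1) / 2)`, is
admissible for the hexagon `|X| < w0`, `|Y| < w2`, `|X + Y| < w1`. -/
theorem lattice_sep {w0 w1 w2 t : ℝ} (hw0 : 0 < w0) (hw2 : 0 < w2) (hw1 : |w0 - w2| ≤ w1)
    (ht : t = max 0 ((w0 + w2 - w1) / 2)) {m n : ℤ} (hmn : ¬ (m = 0 ∧ n = 0)) :
    w0 ≤ |m * w0 - n * t| ∨ w2 ≤ |-(m : ℝ) * t + n * w2| ∨
      w1 ≤ |(m * w0 - n * t) + (-(m : ℝ) * t + n * w2)| := by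
  obtain ⟨h1, h2⟩ := abs_le.1 hw1
  have ht0 : 0 ≤ t := ht ▸ le_max_left _ _
  have htw0 : t ≤ w0 := by rw [ht]; exact max_le hw0.le (by linarith)
  have htw2 : t ≤ w2 := by rw [ht]; exact max_le hw2.le (by linarith)
  -- wlog-free case analysis on the signs
  rcases lt_trichotomy m 0 with hm | hm | hm
  · have hm' : (m : ℝ) ≤ -1 := by exact_mod_cast Int.le_sub_one_of_lt (by omega : m < 0)
    rcases lt_or_ge n 0 with hn | hn
    · have hn' : (n : ℝ) ≤ -1 := by exact_mod_cast Int.le_sub_one_of_lt (by omega : n < 0)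
      rcases le_or_gt (w0 + w2 - w1) 0 with h | h
      · have : t = 0 := by rw [ht]; exact max_eq_left (by linarith)
        left
        rw [this, mul_zero, sub_zero]
        refine le_abs.2 (Or.inr ?_)
        nlinarith
      · have : t = (w0 + w2 - w1) / 2 := by rw [ht]; exact max_eq_right (by linarith)
        right; right
        refine le_abs.2 (Or.inr ?_)
        have e : -((m * w0 - n * t) + (-(m : ℝ) * t + n * w2)) =
          (-(m : ℝ)) * (w0 - t) + (-(n : ℝ)) * (w2 - t) := by ring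
        rw [e]
        nlinarith [mul_nonneg (by linarith : (0 : ℝ) ≤ -(m : ℝ) - 1) (by linarith : 0 ≤ w0 - t),
          mul_nonneg (by linarith : (0 : ℝ) ≤ -(n : ℝ) - 1) (by linarith : 0 ≤ w2 - t)]
    · have hn' : (0 : ℝ) ≤ n := by exact_mod_cast hn
      left
      refine le_abs.2 (Or.inr ?_)
      nlinarith [mul_nonneg hn' ht0]
  · have hn0 : n ≠ 0 := fun h => hmn ⟨hm, h⟩
    right; left
    rw [hm]
    simp only [Int.cast_zero, neg_zero, zero_mul, zero_add]
    rw [abs_mul, abs_of_pos hw2]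
    have : (1 : ℝ) ≤ |(n : ℝ)| := by exact_mod_cast Int.one_le_abs hn0
    nlinarith
  · have hm' : (1 : ℝ) ≤ m := by exact_mod_cast (by omega : 1 ≤ m)
    rcases lt_or_ge 0 n with hn | hn
    · have hn' : (1 : ℝ) ≤ n := by exact_mod_cast (by omega : 1 ≤ n)
      rcases le_or_gt (w0 + w2 - w1) 0 with h | h
      · have : t = 0 := by rw [ht]; exact max_eq_left (by linarith)
        left
        rw [this, mul_zero, sub_zero]
        refine le_abs.2 (Or.inl ?_)
        nlinarith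
      · have : t = (w0 + w2 - w1) / 2 := by rw [ht]; exact max_eq_right (by linarith)
        right; right
        refine le_abs.2 (Or.inl ?_)
        have e : ((m * w0 - n * t) + (-(m : ℝ) * t + n * w2)) =
          (m : ℝ) * (w0 - t) + (n : ℝ) * (w2 - t) := by ring
        rw [e]
        nlinarith [mul_nonneg (by linarith : (0 : ℝ) ≤ (m : ℝ) - 1) (by linarith : 0 ≤ w0 - t),
          mul_nonneg (by linarith : (0 : ℝ) ≤ (n : ℝ) - 1) (by linarith : 0 ≤ w2 - t)]
    · have hn' : (n : ℝ) ≤ 0 := by exact_mod_cast hn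
      left
      refine le_abs.2 (Or.inl ?_)
      nlinarith [mul_nonneg (by linarith : (0 : ℝ) ≤ -(n : ℝ)) ht0]

/-- The area of the cell is at most `(w0 + w1 + w2) ^ 2 / 12`. -/
theorem cell_area {w0 w1 w2 t : ℝ} (hw0 : 0 < w0) (hw2 : 0 < w2) (hw1 : |w0 - w2| ≤ w1)
    (hw1' : 0 < w1) (ht : t = max 0 ((w0 + w2 - w1) / 2)) :
    0 < w0 * w2 - t ^ 2 ∧ w0 * w2 - t ^ 2 ≤ (w0 + w1 + w2) ^ 2 / 12 ∧ 0 ≤ t ∧ t ≤ w0 ∧
      t ≤ w2 := by
  obtain ⟨h1, h2⟩ := abs_le.1 hw1
  have ht0 : 0 ≤ t := ht ▸ le_max_left _ _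
  have htw0 : t ≤ w0 := by rw [ht]; exact max_le hw0.le (by linarith)
  have htw2 : t ≤ w2 := by rw [ht]; exact max_le hw2.le (by linarith)
  refine ⟨?_, ?_, ht0, htw0, htw2⟩
  · rcases le_or_gt (w0 + w2 - w1) 0 with h | h
    · have : t = 0 := by rw [ht]; exact max_eq_left (by linarith)
      rw [this]; nlinarith [mul_pos hw0 hw2]
    · have ht' : t = (w0 + w2 - w1) / 2 := by rw [ht]; exact max_eq_right (by linarith)
      have h3 : w1 = w0 + w2 - 2 * t := by rw [ht']; ring
      have h4 : 0 < (w0 - t) + (w2 - t) := by linarith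
      rcases (by linarith : 0 ≤ w0 - t).eq_or_lt with h5 | h5
      · have : 0 < w2 - t := by linarith
        nlinarith [mul_pos hw0 this]
      · nlinarith [mul_pos h5 hw2, mul_nonneg ht0 (by linarith : 0 ≤ w2 - t)]
  · rcases le_or_gt (w0 + w2 - w1) 0 with h | h
    · have : t = 0 := by rw [ht]; exact max_eq_left (by linarith)
      rw [this]
      nlinarith [sq_nonneg (w0 - w2), mul_pos hw0 hw2, sq_nonneg (w0 + w2)]
    · have ht' : t = (w0 + w2 - w1) / 2 := by rw [ht]; exact max_eq_right (by linarith)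
      rw [ht']
      nlinarith [sq_nonneg (w0 - w1), sq_nonneg (w0 - w2), sq_nonneg (w1 - w2)]

end Pool.Agent.Helper79.PK
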